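import Mathlib
import Pool.Agent.Helper617.RM.HLEquiv
import Pool.Agent.Helper617.RM.Sanity

/-!
The Halpern-Lauchli theorem for one tree implies the one for two trees over `RCA₀`; both are
equivalent to arithmetical comprehension.

`HL_1` implies `ACA₀`. Let `a` be an enumeration. Take the tree of all sequences `u` whose entries
`u p` are `0` or a pair `(x, e)` where `e < 2` and `x` is a stage at which a number `≤ p` is
enumerated; the levels of this tree are finite, but not bounded by a function of the model. Colour
a node `u` of level `n` by the `e` of its strongest entry `(x, e)` with `x ≥ n`, the strongest one
being the one that enumerates the least number. If `a < b` are consecutive levels of a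
homogeneous strong subtree and `s` is a node of it on level `a`, then the immediate successor of
`s` by `(x, e)`, with `e` the wrong colour and `x ≥ b` the true next stage, shows that no number
below `a` and below the numbers of the entries `(x, e)` of `s` with `x ≥ b` is enumerated after
stage `b`. So the range of the enumeration can be computed.

`ACA₀` implies `HL_2`: pass to a set of levels along which all threads have limit colours, and
use conditions (a node `s` of the first tree, finitely many nodes of the second tree with
prescribed colours, realised densely above `s`).
-/

namespace Pool.Agent.Results.MP_3728d2_lc.HLCollapse

open Pool.Agent.Helper617.RM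

universe u

/-- In every model of `RCA₀` (standard or not, with any family of sets): `HL_1` implies `HL_2`.
Moreover `HL_1` and `HL_2` are both equivalent to arithmetical comprehension, also when the strong
subtrees are required to be downward. -/
theorem result (N : L2Structure.{u}) (hN : IsModelRCA0 N) :
    (HL N 1 → HL N 2) ∧
      ∀ down : Prop, (HLGen N down 1 ↔ ArithComp N) ∧ (HLGen N down 2 ↔ ArithComp N) :=
  ⟨fun h => (HL_two_iff False).2 ((HL_one_iff False).1 h),
    fun down => ⟨HL_one_iff down, HL_two_iff down⟩⟩

end Pool.Agent.Results.MP_3728d2_lc.HLCollapse
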